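import Pool.Agent.H41.PRK.S5
import Pool.Agent.H91.T1.CTAK
import Pool.Agent.H78.T1.IRRK

/-!
# PRK: CTAY, the possible `e`
-/

set_option autoImplicit false

namespace Pool.PRK

open Polynomial Matrix Pool.HYP Pool.TOW Pool.AVS Pool.T1 IsDedekindDomain

open Pool.T1.Cta91 in
/-- **CTAY**. -/
theorem ctay : CTAYStmt := by
  intro R _ _ K _ _ _ O π hR g D h C₀ y s E d hg hs hirr hd hne
  obtain ⟨f, hf, G, S, hG, hS, hGd, hSd, hu, hpen, -, -, hnz⟩ := hne
  have hmon := hd.1
  have hpos := hd.2.1
  have hle := fun i => adm_rev hd i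
  have hz : ∀ a b : Fin (2 * g + 1), d a + d b + h + E < 0 → G a b = 0 ∧ S a b = 0 := by
    intro a b hab
    exact ⟨lm_neg hR (by omega) (hGd a b), lm_neg hR hab (hSd a b)⟩
  refine ⟨fun i hi => ?_, fun i j hij => ?_⟩
  · have h0 : 0 ≤ 2 * d ⟨(i : ℕ), by omega⟩ + h + E := by
      by_contra hlt
      refine hnz fun a b ha hb => hz a b ?_
      have h1 : d a ≤ d ⟨(i : ℕ), by omega⟩ := hmon (Fin.mk_le_mk.2 (by omega) : a ≤ _)
      have h2 : d b ≤ d ⟨(i : ℕ), by omega⟩ := hmon (Fin.mk_le_mk.2 (by omega) : b ≤ _)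
      omega
    unfold muK
    omega
  · have hj : (j : ℕ) < g := j.2
    have h0 : 0 ≤ d ⟨(i : ℕ), by omega⟩ + d (Fin.rev ⟨(j : ℕ), by omega⟩) + h + E := by
      by_contra hlt
      have hzero : ∀ a b : Fin (2 * g + 1), (a : ℕ) < (i : ℕ) + 1 →
          (b : ℕ) < 2 * g + 1 - ((i : ℕ) + 1) → (G.map (algebraMap R K)) a b = 0 ∧
            (S.map (algebraMap R K)) a b = 0 := by
        intro a b ha hb
        have h1 : d a ≤ d ⟨(i : ℕ), by omega⟩ := hmon (Fin.mk_le_mk.2 (by omega) : a ≤ _)
        have h2 : d b ≤ d (Fin.rev ⟨(j : ℕ), by omega⟩) :=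
          hmon (Fin.le_def.2 (by rw [Fin.val_rev]; simp only; omega))
        obtain ⟨h5, h6⟩ := hz a b (by omega)
        rw [Matrix.map_apply, Matrix.map_apply, h5, h6, map_zero]
        exact ⟨rfl, rfl⟩
      have hdet : (G.map (algebraMap R K)).det = algebraMap R K G.det :=
        (RingHom.map_det (algebraMap R K) G).symm
      have hu' : algebraMap R K G.det ≠ 0 := by
        rw [Ne, map_eq_zero_iff _ (IsFractionRing.injective R K)]
        exact hu
      refine Pool.HYP.inv K (2 * g + 1) ((i : ℕ) + 1) (G.map (algebraMap R K))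
        (S.map (algebraMap R K)) (by omega) (by omega) (by rw [hdet]; exact hu') hzero ?_
      have hirr' := hirr f hf
      have hfm : f.Monic := hf.1.1
      have hs' : algebraMap R K s ≠ 0 := by
        rw [Ne, map_eq_zero_iff _ (IsFractionRing.injective R K)]
        exact hs
      have hsc : fk K (f.scaleRoots s) = (fk K f).scaleRoots (algebraMap R K s) := by
        refine map_scaleRoots f s _ ?_
        rw [hfm.leadingCoeff, map_one]
        exact one_ne_zero
      have hirr2 : Irreducible (fk K (f.scaleRoots s)) := by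
        rw [hsc]
        have h7 : ((fk K f).scaleRoots (algebraMap R K s)).scaleRoots (algebraMap R K s)⁻¹ =
            fk K f := by
          rw [← scaleRoots_mul, mul_inv_cancel₀ hs', scaleRoots_one]
        exact Irrk.irr_of_scaleRoots _ (algebraMap R K s)⁻¹ (by rw [h7]; exact hirr')
      rw [pen_mapK, hpen, Polynomial.map_mul, Polynomial.map_C]
      exact (irreducible_isUnit_mul ((isUnit_iff_ne_zero.2 hu').map C)).2 hirr2
    have h1 := hle ⟨(j : ℕ), by omega⟩
    unfold muK
    omega

end Pool.PRK
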