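import Pool.Agent.H41.PRK.S5
import Pool.Agent.H88.T1.CTSK

/-!
# PRK: CTTY, the trivial bound for the number of pairs
-/

set_option autoImplicit false

namespace Pool.PRK

open Polynomial Matrix Pool.HYP Pool.TOW Pool.AVS Pool.T1 IsDedekindDomain

/-- **CTTY**: the pairs are pairs of symmetric matrices with bounded entries. -/
theorem ctty : CTTYStmt := by
  intro R _ _ K _ _ O π hU g D h y d E e
  obtain ⟨f1, n1⟩ := ctsk R K O π hU (2 * g + 1) (fun i j => e i + e j)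
  obtain ⟨f2, n2⟩ := ctsk R K O π hU (2 * g + 1) (fun i j => e i + e j + (h + E : ℕ))
  have hsub : PPY π g D h y d E e ⊆
      {G : Matrix (Fin (2 * g + 1)) (Fin (2 * g + 1)) R |
        Gᵀ = G ∧ ∀ i j, G i j ∈ Lm R O π ((fun i j => e i + e j) i j)} ×ˢ
      {G : Matrix (Fin (2 * g + 1)) (Fin (2 * g + 1)) R |
        Gᵀ = G ∧ ∀ i j, G i j ∈ Lm R O π ((fun i j => e i + e j + (h + E : ℕ)) i j)} := by
    rintro ⟨G, S⟩ ⟨f, -, h1, h2, h3, h4, -⟩
    refine ⟨⟨h1, h3⟩, ⟨h2, fun i j => ?_⟩⟩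
    have h5 := h4 i j
    have h6 : e i + e j + (h : ℤ) + (E : ℤ) = e i + e j + ((h + E : ℕ) : ℤ) := by
      push_cast
      ring
    rw [h6] at h5
    exact h5
  refine ⟨(f1.prod f2).subset hsub, ?_⟩
  calc (PPY π g D h y d E e).ncard ≤ _ := Set.ncard_le_ncard hsub (f1.prod f2)
    _ = _ := Set.ncard_prod
    _ ≤ _ := Nat.mul_le_mul n1 n2
    _ = qq O ^ (EGk e + ESk e (h + E)) := (pow_add _ _ _).symm

end Pool.PRK
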