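import Pool.Agent.H5.PRK.S3

/-!
# PRK: DEDK, the integral elements of `K[x]/(f)` for a smooth curve

`B = R[x]/(f)` is a Noetherian domain with field of fractions `L = K[x]/(f)`.  A maximal ideal `M ≠ 0`
of `B` lies above a maximal ideal `P ≠ 0` of `R`, `M N = P B` by DEDA and `P P' = (a)`: so `M` is
invertible and `B` is integrally closed by DEDB.
-/

set_option autoImplicit false

namespace Pool.PRK

open Polynomial Pool.HYP Pool.AVS Pool.T1 IsDedekindDomain

open scoped nonZeroDivisors

/-- DEDK. -/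
theorem dedk : DEDKStmt := by
  intro hA hB R _ _ K _ _ _ f hf hirr hsm x hx
  have : Fact (Irreducible (fk K f)) := ⟨hirr⟩
  have hinjK : Function.Injective (algebraMap R K) := IsFractionRing.injective R K
  have hC : ∀ r : R, fk K (C r) = C (algebraMap R K r) := fun _ => Polynomial.map_C _
  let j : AdjoinRoot f →+* AdjoinRoot (fk K f) :=
    AdjoinRoot.map (algebraMap R K) f (fk K f) dvd_rfl
  have hj : ∀ p : R[X], j (AdjoinRoot.mk f p) = AdjoinRoot.mk (fk K f) (fk K p) := by
    intro p
    have h2 : (j.comp (AdjoinRoot.mk f)) =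
        (AdjoinRoot.mk (fk K f)).comp (Polynomial.mapRingHom (algebraMap R K)) := by
      refine Polynomial.ringHom_ext ?_ ?_
      · intro r
        simp only [RingHom.comp_apply, AdjoinRoot.mk_C, Polynomial.coe_mapRingHom,
          Polynomial.map_C]
        exact AdjoinRoot.map_of _ _ _ _ _
      · simp only [RingHom.comp_apply, AdjoinRoot.mk_X, Polynomial.coe_mapRingHom,
          Polynomial.map_X]
        exact AdjoinRoot.map_root _ _ _ _
    exact congrArg (fun g : R[X] →+* AdjoinRoot (fk K f) => g p) h2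
  have hjinj : Function.Injective j := by
    rw [injective_iff_map_eq_zero]
    intro b hb
    obtain ⟨p, rfl⟩ := AdjoinRoot.mk_surjective b
    rw [hj, AdjoinRoot.mk_eq_zero, Polynomial.map_dvd_map _ hinjK hf] at hb
    exact AdjoinRoot.mk_eq_zero.2 hb
  have : IsDomain (AdjoinRoot f) := hjinj.isDomain j
  let _ : Algebra (AdjoinRoot f) (AdjoinRoot (fk K f)) := j.toAlgebra
  have hal : ∀ b : AdjoinRoot f, algebraMap (AdjoinRoot f) (AdjoinRoot (fk K f)) b = j b :=
    fun _ => rfl
  have hR : ∀ r : R, algebraMap R (AdjoinRoot f) r = AdjoinRoot.mk f (C r) := fun _ => rfl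
  have hRL : ∀ r : R, algebraMap R (AdjoinRoot (fk K f)) r =
      AdjoinRoot.mk (fk K f) (C (algebraMap R K r)) := fun _ => rfl
  have : IsScalarTower R (AdjoinRoot f) (AdjoinRoot (fk K f)) := by
    refine IsScalarTower.of_algebraMap_eq fun r => ?_
    rw [hal, hR, hj, hRL, hC]
  have : IsFractionRing (AdjoinRoot f) (AdjoinRoot (fk K f)) := by
    refine ⟨?_, ?_, ?_⟩
    · intro s
      rw [isUnit_iff_ne_zero, hal]
      intro h0
      exact nonZeroDivisors.ne_zero s.2 (hjinj (by rw [h0, map_zero]))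
    · intro z
      obtain ⟨p, rfl⟩ := AdjoinRoot.mk_surjective z
      obtain ⟨b, hb, hp⟩ := IsLocalization.integerNormalization_spec (nonZeroDivisors R) p
      refine ⟨⟨AdjoinRoot.mk f (IsLocalization.integerNormalization (nonZeroDivisors R) p),
        ⟨algebraMap R (AdjoinRoot f) b, ?_⟩⟩, ?_⟩
      · refine mem_nonZeroDivisors_of_ne_zero ?_
        intro h0
        have h1 : j (algebraMap R (AdjoinRoot f) b) = 0 := by rw [h0, map_zero]
        rw [hR, hj, hC, AdjoinRoot.mk_C] at h1
        have h2 : algebraMap R K b = 0 :=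
          (AdjoinRoot.of (fk K f)).injective (by rw [h1, map_zero])
        exact nonZeroDivisors.ne_zero hb (hinjK (by rw [h2, map_zero]))
      · show AdjoinRoot.mk (fk K f) p * algebraMap _ _ (algebraMap R (AdjoinRoot f) b) =
          algebraMap _ _ (AdjoinRoot.mk f _)
        rw [hal, hal, hR, hj, hj, ← map_mul]
        have h3 : fk K (IsLocalization.integerNormalization (nonZeroDivisors R) p) =
            p * fk K (C b) := by
          rw [show fk K (IsLocalization.integerNormalization (nonZeroDivisors R) p) =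
            b • p from hp, hC, Algebra.smul_def, mul_comm]
          rfl
        rw [h3]
    · intro a b h
      exact ⟨1, by rw [hjinj h]⟩
  have : Module.Finite R (AdjoinRoot f) := hf.finite_adjoinRoot
  have : Algebra.IsIntegral R (AdjoinRoot f) := Algebra.IsIntegral.of_finite R (AdjoinRoot f)
  have key : ∀ M : Ideal (AdjoinRoot f), M.IsMaximal → M ≠ ⊥ →
      ∃ (N : Ideal (AdjoinRoot f)) (a : AdjoinRoot f), a ≠ 0 ∧ M * N = Ideal.span {a} := by
    intro M hM hM0
    have hPm : (M.comap (algebraMap R (AdjoinRoot f))).IsMaximal :=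
      Ideal.isMaximal_comap_of_isIntegral_of_isMaximal M
    have hP0 : M.comap (algebraMap R (AdjoinRoot f)) ≠ ⊥ := fun h0 =>
      hM0 (Ideal.eq_bot_of_comap_eq_bot h0)
    let P : HeightOneSpectrum R := ⟨M.comap (algebraMap R (AdjoinRoot f)), hPm.isPrime, hP0⟩
    obtain ⟨N, hN⟩ := hA R f P hf (hsm P) M hM (Ideal.map_comap_le)
    obtain ⟨a, ha, ha0⟩ := Submodule.exists_mem_ne_zero_of_ne_bot hP0
    have hdv : P.asIdeal ∣ Ideal.span {a} := by
      rw [Ideal.dvd_iff_le, Ideal.span_singleton_le_iff_mem]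
      exact ha
    obtain ⟨Q, hQ⟩ := hdv
    refine ⟨N * Q.map (algebraMap R (AdjoinRoot f)), algebraMap R (AdjoinRoot f) a, ?_, ?_⟩
    · intro h0
      have h1 : j (algebraMap R (AdjoinRoot f) a) = 0 := by rw [h0, map_zero]
      rw [hR, hj, hC, AdjoinRoot.mk_C] at h1
      have h2 : algebraMap R K a = 0 :=
        (AdjoinRoot.of (fk K f)).injective (by rw [h1, map_zero])
      exact ha0 (hinjK (by rw [h2, map_zero]))
    · rw [← mul_assoc, hN, ← Ideal.map_mul, ← hQ, Ideal.map_span, Set.image_singleton]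
  obtain ⟨b, hb⟩ := hB (AdjoinRoot f) (AdjoinRoot (fk K f)) key x hx.tower_top
  obtain ⟨p, rfl⟩ := AdjoinRoot.mk_surjective b
  exact ⟨p, by rw [← hb, hal, hj]⟩

end Pool.PRK
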